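import Mathlib

set_option autoImplicit false

namespace Pool.Agent.Results.MP_e85eb4_nt.AllParts

open Polynomial

/-- A rational function of degree `d` over the field `K`, written as `num / den` in lowest terms:
`num` and `den` are coprime polynomials and the larger of their degrees is `d`.  This is
`End^1_d(K)`. -/
structure RationalMap (K : Type*) [Field K] (d : ℕ) where
  /-- the numerator -/
  num : K[X]
  /-- the denominator -/
  den : K[X]
  coprime : IsCoprime num den
  degree_eq : max num.natDegree den.natDegree = d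

/-- The action of a rational function on `ℙ¹(K) = K ∪ {∞}`. -/
noncomputable def RationalMap.map {K : Type*} [Field K] {d : ℕ} (f : RationalMap K d) :
    OnePoint K → OnePoint K := by
  classical
  exact fun P => match P with
  | none => if f.den.coeff d = 0 then OnePoint.infty
      else ((f.num.coeff d / f.den.coeff d : K) : OnePoint K)
  | some z => if f.den.eval z = 0 then OnePoint.infty
      else ((f.num.eval z / f.den.eval z : K) : OnePoint K)

/-- The `n`-th iterate `f^n` as an element of `K(x)`. -/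
noncomputable def RationalMap.iter {K : Type*} [Field K] {d : ℕ} (f : RationalMap K d) (n : ℕ) :
    RatFunc K :=
  (fun g : RatFunc K => f.num.eval₂ RatFunc.C g / f.den.eval₂ RatFunc.C g)^[n] RatFunc.X

/-- The polynomial `F_n - α G_n`, where `f^n = F_n / G_n` in lowest terms. -/
noncomputable def RationalMap.fiberPoly {K : Type*} [Field K] {d : ℕ} (f : RationalMap K d)
    (n : ℕ) (α : K) : K[X] :=
  (f.iter n).num - C α * (f.iter n).denom

/-- `α` is wandering for `f`: its forward orbit in `ℙ¹(K)` is infinite. -/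
def Wandering {K : Type*} [Field K] {d : ℕ} (f : RationalMap K d) (α : K) : Prop :=
  (Set.range fun n : ℕ => f.map^[n] (α : OnePoint K)).Infinite

/-- `Ω_K(h)`: the number of irreducible factors of `h` in `K[x]`, with multiplicity. -/
noncomputable def Omega {K : Type*} [Field K] (h : K[X]) : ℕ :=
  (UniqueFactorizationMonoid.factors h).card

section Helpers

variable {K : Type*} [Field K]

theorem omega_mul (p q : K[X]) (hp : p ≠ 0) (hq : q ≠ 0) : Omega (p * q) = Omega p + Omega q := by
  unfold Omega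
  rw [Multiset.card_eq_card_of_rel (UniqueFactorizationMonoid.factors_mul hp hq),
    Multiset.card_add]

theorem omega_pos (p : K[X]) (hp : 0 < p.natDegree) : 1 ≤ Omega p := by
  have h0 : p ≠ 0 := by rintro rfl; simp at hp
  have hu : ¬ IsUnit p := by
    intro h
    have := Polynomial.natDegree_eq_zero_of_isUnit h
    omega
  obtain ⟨q, hq⟩ := UniqueFactorizationMonoid.exists_mem_factors h0 hu
  unfold Omega
  exact Multiset.card_pos_iff_exists_mem.2 ⟨q, hq⟩

theorem natDegree_sub (y : K[X]) (c : K) (m : ℕ) :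
    (y ^ m - C c).natDegree = m * y.natDegree := by
  rw [natDegree_sub_C, natDegree_pow]

/-- the key factorisation -/
theorem omega_chain (y : K[X]) (hy : 0 < y.natDegree) (c : K) (q : ℕ) (hq : 2 ≤ q) (j : ℕ) :
    j + 1 ≤ Omega (y ^ q ^ j - C (c ^ q ^ j)) := by
  induction j with
  | zero =>
    rw [pow_zero, pow_one, pow_one]
    apply omega_pos
    rw [natDegree_sub_C]; exact hy
  | succ j ih =>
    set Y : K[X] := y ^ q ^ j with hY
    set e : K[X] := C (c ^ q ^ j) with he
    have hqj : 0 < q ^ j := by positivity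
    have hYdeg : (Y - e).natDegree = q ^ j * y.natDegree := natDegree_sub y _ _
    have hbig : (Y ^ q - e ^ q).natDegree = q * (q ^ j * y.natDegree) := by
      rw [he, ← C_pow, natDegree_sub_C, natDegree_pow, hY, natDegree_pow]
    have heq : y ^ q ^ (j + 1) - C (c ^ q ^ (j + 1)) = Y ^ q - e ^ q := by
      rw [hY, he, ← C_pow, ← pow_mul, ← pow_mul, ← pow_succ]
    rw [heq]
    have hfac : Y ^ q - e ^ q = (∑ i ∈ Finset.range q, Y ^ i * e ^ (q - 1 - i)) * (Y - e) :=
      (Commute.geom_sum₂_mul (Commute.all Y e) q).symm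
    set Q : K[X] := ∑ i ∈ Finset.range q, Y ^ i * e ^ (q - 1 - i) with hQ
    have hposj : 0 < q ^ j * y.natDegree := Nat.mul_pos hqj hy
    have hne : Y ^ q - e ^ q ≠ 0 := by
      intro h
      rw [h, natDegree_zero] at hbig
      have : 0 < q * (q ^ j * y.natDegree) := Nat.mul_pos (by omega) hposj
      omega
    have hQ0 : Q ≠ 0 := by
      intro h; rw [h, zero_mul] at hfac; exact hne hfac
    have hYe : Y - e ≠ 0 := by
      intro h; rw [h, mul_zero] at hfac; exact hne hfac
    have hQdeg : 0 < Q.natDegree := by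
      have h1 := natDegree_mul hQ0 hYe
      rw [← hfac, hbig, hYdeg] at h1
      by_contra h2
      have h3 : Q.natDegree = 0 := by omega
      rw [h3, zero_add] at h1
      have : 2 * (q ^ j * y.natDegree) ≤ q * (q ^ j * y.natDegree) := Nat.mul_le_mul_right _ hq
      omega
    rw [hfac, omega_mul _ _ hQ0 hYe]
    have := omega_pos Q hQdeg
    omega

/-- The map `x ↦ x^d`. -/
noncomputable def powMap (K : Type*) [Field K] (d : ℕ) : RationalMap K d where
  num := X ^ d
  den := 1
  coprime := isCoprime_one_right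
  degree_eq := by simp

theorem powMap_map (d : ℕ) (z : K) : (powMap K d).map (z : OnePoint K) = ((z ^ d : K) : OnePoint K) := by
  have h : ((powMap K d).den.eval z) ≠ 0 := by simp [powMap]
  have h2 : (powMap K d).map (z : OnePoint K) =
      (((powMap K d).num.eval z / (powMap K d).den.eval z : K) : OnePoint K) := by
    classical
    exact if_neg h
  rw [h2]
  simp [powMap]

theorem powMap_infty (d : ℕ) (hd : d ≠ 0) : (powMap K d).map OnePoint.infty = OnePoint.infty := by
  have h : (powMap K d).den.coeff d = 0 := by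
    simp [powMap, coeff_one, hd]
  classical
  exact if_pos h

theorem powMap_iterate (d n : ℕ) (z : K) :
    (powMap K d).map^[n] (z : OnePoint K) = ((z ^ d ^ n : K) : OnePoint K) := by
  induction n with
  | zero => simp
  | succ n ih => rw [Function.iterate_succ_apply', ih, powMap_map, ← pow_mul, ← pow_succ]

theorem powMap_iter (d n : ℕ) : (powMap K d).iter n = algebraMap K[X] (RatFunc K) (X ^ d ^ n) := by
  induction n with
  | zero => simp [RationalMap.iter]
  | succ n ih =>
    unfold RationalMap.iter at ih ⊢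
    rw [Function.iterate_succ_apply', ih]
    simp [powMap, ← pow_mul, ← pow_succ]

theorem powMap_fiber (d n : ℕ) (α : K) : (powMap K d).fiberPoly n α = X ^ d ^ n - C α := by
  unfold RationalMap.fiberPoly
  rw [powMap_iter, RatFunc.num_algebraMap, RatFunc.denom_algebraMap, mul_one]

/-- no element of a number field has `p^n`-th power equal to `2` for large `n` -/
theorem no_deep_root (K : Type*) [Field K] [NumberField K] (p : ℕ) (hp : p.Prime) :
    ¬ ∃ β : K, β ^ p ^ (Module.finrank ℚ K) = 2 := by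
  rintro ⟨β, hβ⟩
  set D := Module.finrank ℚ K with hD
  have hDpos : 0 < D := Module.finrank_pos
  have h1 : (Algebra.norm ℚ β) ^ p ^ D = (2 : ℚ) ^ D := by
    rw [← map_pow, hβ]
    have : (2 : K) = algebraMap ℚ K 2 := by simp
    rw [this, Algebra.norm_algebraMap]
  set x := Algebra.norm ℚ β with hx
  have : Fact (Nat.Prime 2) := ⟨Nat.prime_two⟩
  have hx0 : x ≠ 0 := by
    intro h
    rw [h, zero_pow (pow_ne_zero _ hp.ne_zero)] at h1
    have : (2 : ℚ) ^ D ≠ 0 := by positivity
    exact this h1.symm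
  have h2 : padicValRat 2 (x ^ p ^ D) = padicValRat 2 ((2 : ℚ) ^ D) := by rw [h1]
  rw [padicValRat.pow, padicValRat.pow] at h2
  have h3 : padicValRat 2 (2 : ℚ) = 1 := by
    have := padicValRat.self (p := 2) (by norm_num)
    exact_mod_cast this
  rw [h3, mul_one] at h2
  have h4 : ((p ^ D : ℕ) : ℤ) ∣ (D : ℤ) := ⟨padicValRat 2 x, by rw [← h2]⟩
  have h5 : p ^ D ∣ D := by exact_mod_cast h4
  have h6 := Nat.le_of_dvd hDpos h5
  have h7 : D < p ^ D := Nat.lt_pow_self hp.one_lt
  omega

theorem exists_base (K : Type*) [Field K] [NumberField K] (p : ℕ) (hp : p.Prime) :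
    ∃ β : K, β ≠ 0 ∧ (∀ m : ℕ, 0 < m → β ^ m ≠ 1) ∧ ∀ γ : K, γ ^ p ≠ β := by
  by_contra hcon
  push Not at hcon
  have key : ∀ n : ℕ, ∃ β : K, β ^ p ^ n = 2 := by
    intro n
    induction n with
    | zero => exact ⟨2, by simp⟩
    | succ n ih =>
      obtain ⟨β, hβ⟩ := ih
      have h0 : β ≠ 0 := by
        rintro rfl
        rw [zero_pow (pow_ne_zero _ hp.ne_zero)] at hβ
        exact two_ne_zero hβ.symm
      have h1 : ∀ m : ℕ, 0 < m → β ^ m ≠ 1 := by
        intro m hm h
        have h2 : (2 : K) ^ m = 1 := by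
          rw [← hβ, ← pow_mul, mul_comm, pow_mul, h, one_pow]
        have h3 : ((2 ^ m : ℕ) : K) = ((1 : ℕ) : K) := by push_cast; exact h2
        have h4 : 2 ^ m = 1 := Nat.cast_injective h3
        have h5 : 1 < 2 ^ m := Nat.one_lt_two_pow (by omega)
        omega
      obtain ⟨γ, hγ⟩ := hcon β h0 h1
      refine ⟨γ, ?_⟩
      rw [pow_succ', pow_mul, hγ, hβ]
  exact no_deep_root K p hp (key _)



/-- The quadratic polynomial `x² - 119/48`. -/
noncomputable def quad : RationalMap ℚ 2 where
  num := X ^ 2 - C (119 / 48)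
  den := 1
  coprime := isCoprime_one_right
  degree_eq := by
    rw [natDegree_one, natDegree_sub_C, natDegree_X_pow]; rfl

theorem quad_map (z : ℚ) :
    quad.map (z : OnePoint ℚ) = ((z ^ 2 - 119 / 48 : ℚ) : OnePoint ℚ) := by
  have h : (quad.den.eval z) ≠ 0 := by simp [quad]
  have h2 : quad.map (z : OnePoint ℚ) =
      ((quad.num.eval z / quad.den.eval z : ℚ) : OnePoint ℚ) := by
    classical
    exact if_neg h
  rw [h2]
  simp [quad]

theorem quad_infty : quad.map OnePoint.infty = OnePoint.infty := by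
  have h : quad.den.coeff 2 = 0 := by
    simp [quad, coeff_one]
  classical
  exact if_pos h

theorem quad_iter_succ (n : ℕ) (p : ℚ[X]) (h : quad.iter n = algebraMap ℚ[X] (RatFunc ℚ) p) :
    quad.iter (n + 1) = algebraMap ℚ[X] (RatFunc ℚ) (p ^ 2 - C (119 / 48)) := by
  unfold RationalMap.iter at h ⊢
  rw [Function.iterate_succ_apply', h]
  simp [quad]

theorem quad_iter_three : quad.iter 3 = algebraMap ℚ[X] (RatFunc ℚ)
    (((X ^ 2 - C (119 / 48)) ^ 2 - C (119 / 48)) ^ 2 - C (119 / 48)) := by
  apply quad_iter_succ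
  apply quad_iter_succ
  apply quad_iter_succ
  simp [RationalMap.iter]

theorem quad_fiber : quad.fiberPoly 3 (13 / 4) =
    (X ^ 2 + (C (-(1 / 2)) * X + C (-(173 / 48)))) * ((X ^ 2 + (C (1 / 2) * X + C (-(173 / 48)))) *
      ((X ^ 2 + (C (-2) * X + C (37 / 48))) * (X ^ 2 + (C 2 * X + C (37 / 48))))) := by
  unfold RationalMap.fiberPoly
  rw [quad_iter_three, RatFunc.num_algebraMap, RatFunc.denom_algebraMap, mul_one]
  apply Polynomial.funext
  intro r
  simp only [eval_sub, eval_pow, eval_X, eval_C, eval_mul, eval_add]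
  ring

theorem natDegree_quadratic' (b c : ℚ) : (X ^ 2 + (C b * X + C c) : ℚ[X]).natDegree = 2 := by
  compute_degree!

theorem orbit_quad (n : ℕ) : ∃ z : ℚ, quad.map^[n] ((13 / 4 : ℚ) : OnePoint ℚ) = (z : OnePoint ℚ) ∧
    13 / 4 + (n : ℚ) ≤ z := by
  induction n with
  | zero => exact ⟨13 / 4, rfl, by norm_num⟩
  | succ n ih =>
    obtain ⟨z, hz, hle⟩ := ih
    refine ⟨z ^ 2 - 119 / 48, ?_, ?_⟩
    · rw [Function.iterate_succ_apply', hz, quad_map]
    · have : (0 : ℚ) ≤ n := Nat.cast_nonneg n
      push_cast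
      nlinarith

theorem quad_wandering : Wandering quad (13 / 4) := by
  unfold Wandering
  intro hfin
  -- the orbit would be bounded
  have hfin2 : (((fun z : ℚ => (z : OnePoint ℚ)) ⁻¹'
      (Set.range fun n : ℕ => quad.map^[n] ((13 / 4 : ℚ) : OnePoint ℚ)))).Finite :=
    hfin.preimage (OnePoint.coe_injective.injOn)
  obtain ⟨B, hB⟩ := hfin2.bddAbove
  obtain ⟨n, hn⟩ := exists_nat_gt B
  obtain ⟨z, hz, hle⟩ := orbit_quad n
  have h1 : z ≤ B := by
    apply hB
    exact ⟨n, hz⟩
  linarith

theorem not_square (z : ℚ) : z ^ 2 ≠ 275 / 48 := by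
  intro h
  have : Fact (Nat.Prime 3) := ⟨Nat.prime_three⟩
  have hz : z ≠ 0 := by rintro rfl; norm_num at h
  have h1 : 48 * z ^ 2 = 275 := by rw [h]; norm_num
  obtain ⟨y, hy⟩ : ∃ y : ℚ, y = 12 * z := ⟨_, rfl⟩
  have h2 : y ^ 2 = 3 * 275 := by rw [hy]; linarith
  have h3 : padicValRat 3 (y ^ 2) = padicValRat 3 (3 * 275 : ℚ) := by
    rw [h2]
  rw [padicValRat.pow, padicValRat.mul (by norm_num) (by norm_num)] at h3
  have h4 : padicValRat 3 (3 : ℚ) = 1 := by
    have := padicValRat.self (p := 3) (by norm_num)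
    exact_mod_cast this
  have h5 : padicValRat 3 (275 : ℚ) = 0 := by
    have h6 : padicValNat 3 275 = 0 := padicValNat.eq_zero_of_not_dvd (by norm_num)
    have h7 : padicValRat 3 ((275 : ℕ) : ℚ) = (padicValNat 3 275 : ℤ) := padicValRat.of_nat
    rw [h6] at h7
    exact_mod_cast h7
  rw [h4, h5] at h3
  push_cast at h3
  omega

end Helpers

/-- Part 1: for every number field `K` and every `d ≥ 2` that is not a prime power, no bound
`κ(d, K)` exists. -/
theorem partOne (K : Type*) [Field K] [NumberField K] (d : ℕ) (hd : 2 ≤ d)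
    (hpp : ¬ IsPrimePow d) (κ : ℕ) :
    ∃ (f : RationalMap K d) (α : K), Wandering f α ∧
      (∀ P : OnePoint K, f.map P ≠ (α : OnePoint K)) ∧
      ∃ n : ℕ, 1 ≤ n ∧ κ < Omega (f.fiberPoly n α) := by
  -- two distinct primes dividing `d`
  obtain ⟨p, q, hp, hq, hpq, hpd, hqd⟩ : ∃ p q : ℕ, p.Prime ∧ q.Prime ∧ p ≠ q ∧ p ∣ d ∧ q ∣ d := by
    rw [isPrimePow_iff_unique_prime_dvd] at hpp
    have h1 : (Nat.minFac d).Prime := Nat.minFac_prime (by omega)
    have h2 : Nat.minFac d ∣ d := Nat.minFac_dvd d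
    by_contra hcon
    push Not at hcon
    apply hpp
    refine ⟨Nat.minFac d, ⟨h1, h2⟩, ?_⟩
    rintro q ⟨hq, hqd⟩
    by_contra hne
    exact hcon q (Nat.minFac d) hq h1 hne hqd h2
  obtain ⟨β, hβ0, hβ1, hβp⟩ := exists_base K p hp
  set j := κ + 1 with hj
  set α : K := β ^ q ^ j with hα
  refine ⟨powMap K d, α, ?_, ?_, j, by omega, ?_⟩
  · -- wandering
    unfold Wandering
    apply Set.infinite_range_of_injective
    intro n m hnm
    simp only [powMap_iterate] at hnm
    have h1 : α ^ d ^ n = α ^ d ^ m := by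
      exact_mod_cast hnm
    have hinj : ∀ a b : ℕ, a < b → α ^ a ≠ α ^ b := by
      intro a b hab h
      have hα0 : α ≠ 0 := pow_ne_zero _ hβ0
      have h2 : α ^ (b - a) = 1 := by
        have h3 : α ^ a * α ^ (b - a) = α ^ a * 1 := by
          rw [← pow_add, mul_one, Nat.add_sub_cancel' hab.le, h]
        exact mul_left_cancel₀ (pow_ne_zero a hα0) h3
      rw [hα, ← pow_mul] at h2
      have : 0 < q ^ j * (b - a) := Nat.mul_pos (pow_pos hq.pos _) (by omega)
      exact hβ1 _ this h2
    have h2 : d ^ n = d ^ m := by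
      rcases lt_trichotomy (d ^ n) (d ^ m) with h | h | h
      · exact absurd h1 (hinj _ _ h)
      · exact h
      · exact absurd h1.symm (hinj _ _ h)
    exact Nat.pow_right_injective hd h2
  · -- no rational preimage
    intro P
    induction P using OnePoint.rec with
    | infty =>
      rw [powMap_infty d (by omega)]
      exact OnePoint.infty_ne_coe α
    | coe z =>
      rw [powMap_map]
      intro h
      have h1 : z ^ d = β ^ q ^ j := by exact_mod_cast h
      obtain ⟨e, he⟩ := hpd
      have h2 : (z ^ e) ^ p = β ^ q ^ j := by rw [← pow_mul, mul_comm, ← he, h1]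
      have hcop : Nat.Coprime p (q ^ j) := Nat.Coprime.pow_right _ ((Nat.coprime_primes hp hq).2 hpq)
      -- Bezout
      have hz0 : z ^ e ≠ 0 := by
        intro h3
        rw [h3, zero_pow hp.ne_zero] at h2
        exact pow_ne_zero _ hβ0 h2.symm
      have hbez := Nat.gcd_eq_gcd_ab p (q ^ j)
      rw [hcop.gcd_eq_one] at hbez
      set u := Nat.gcdA p (q ^ j) with hu
      set v := Nat.gcdB p (q ^ j) with hv
      have h5 : (β ^ u * (z ^ e) ^ v) ^ p = β := by
        rw [mul_pow, ← zpow_natCast (β ^ u) p, ← zpow_mul, ← zpow_natCast ((z ^ e) ^ v) p,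
          ← zpow_mul, mul_comm v (p : ℤ), zpow_mul (z ^ e) (p : ℤ) v, zpow_natCast (z ^ e) p, h2,
          ← zpow_natCast β (q ^ j), ← zpow_mul, ← zpow_add₀ hβ0]
        have h6 : u * (p : ℤ) + ((q ^ j : ℕ) : ℤ) * v = 1 := by
          rw [mul_comm u]; exact_mod_cast hbez.symm
        rw [h6, zpow_one]
      exact hβp _ h5
  · -- many factors
    rw [powMap_fiber]
    obtain ⟨e, he⟩ := hqd
    have he0 : 0 < e := by
      rcases Nat.eq_zero_or_pos e with h | h
      · rw [h, mul_zero] at he; omega
      · exact h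
    have h1 : (X : K[X]) ^ d ^ j = (X ^ e ^ j) ^ q ^ j := by
      rw [← pow_mul, he, mul_pow, mul_comm]
    rw [h1]
    have h2 := omega_chain (X ^ e ^ j : K[X]) (by rw [natDegree_X_pow]; positivity) β q hq.two_le j
    rw [← hα] at h2
    omega


/-- The bound `κ` is admissible for degree `d` over the number field `K`: every `f` of degree `d`
over `K` and every `α ∈ K` that is wandering for `f` and has no preimage in `ℙ¹(K)` satisfy
`Ω_K(F_n - α G_n) ≤ κ` for all `n ≥ 1`. -/
def Admissible (K : Type) [Field K] [NumberField K] (d κ : ℕ) : Prop :=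
  ∀ (f : RationalMap K d) (α : K), Wandering f α →
    (∀ P : OnePoint K, f.map P ≠ (α : OnePoint K)) →
    ∀ n : ℕ, 1 ≤ n → Omega (f.fiberPoly n α) ≤ κ

/-- (Q1) For every number field `K` and every `d ≥ 2` that is not a prime power no `κ` is
admissible; (Q2(a)) `κ = 3` is not admissible for `d = 2`, `K = ℚ`; (Q2(b)) no function
`κ(d, [K : ℚ])` is admissible for all number fields `K` and all `d ≥ 2`. -/
theorem result :
    (∀ (K : Type) [Field K] [NumberField K] (d : ℕ), 2 ≤ d → ¬ IsPrimePow d →
      ¬ ∃ κ : ℕ, Admissible K d κ) ∧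
    ¬ Admissible ℚ 2 3 ∧
    ¬ ∃ κ : ℕ → ℕ → ℕ, ∀ (K : Type) [Field K] [NumberField K] (d : ℕ), 2 ≤ d →
      Admissible K d (κ d (Module.finrank ℚ K)) := by
  have h1 : ∀ (K : Type) [Field K] [NumberField K] (d : ℕ), 2 ≤ d → ¬ IsPrimePow d →
      ¬ ∃ κ : ℕ, Admissible K d κ := by
    rintro K _ _ d hd hpp ⟨κ, hκ⟩
    obtain ⟨f, α, hw, hp, n, hn, hlt⟩ := partOne K d hd hpp κ
    exact absurd (hκ f α hw hp n hn) (by omega)
  refine ⟨h1, ?_, ?_⟩
  · intro h
    have h2 := h quad (13 / 4) quad_wandering ?_ 3 (by norm_num)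
    · rw [quad_fiber] at h2
      have e1 := natDegree_quadratic' (-(1 / 2)) (-(173 / 48))
      have e2 := natDegree_quadratic' (1 / 2) (-(173 / 48))
      have e3 := natDegree_quadratic' (-2) (37 / 48)
      have e4 := natDegree_quadratic' 2 (37 / 48)
      set p1 : ℚ[X] := X ^ 2 + (C (-(1 / 2)) * X + C (-(173 / 48))) with hp1
      set p2 : ℚ[X] := X ^ 2 + (C (1 / 2) * X + C (-(173 / 48))) with hp2
      set p3 : ℚ[X] := X ^ 2 + (C (-2) * X + C (37 / 48)) with hp3
      set p4 : ℚ[X] := X ^ 2 + (C 2 * X + C (37 / 48)) with hp4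
      have n1 : p1 ≠ 0 := by intro h; rw [h, natDegree_zero] at e1; omega
      have n2 : p2 ≠ 0 := by intro h; rw [h, natDegree_zero] at e2; omega
      have n3 : p3 ≠ 0 := by intro h; rw [h, natDegree_zero] at e3; omega
      have n4 : p4 ≠ 0 := by intro h; rw [h, natDegree_zero] at e4; omega
      rw [omega_mul _ _ n1 (mul_ne_zero n2 (mul_ne_zero n3 n4)),
        omega_mul _ _ n2 (mul_ne_zero n3 n4), omega_mul _ _ n3 n4] at h2
      have o1 := omega_pos p1 (by omega)
      have o2 := omega_pos p2 (by omega)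
      have o3 := omega_pos p3 (by omega)
      have o4 := omega_pos p4 (by omega)
      omega
    · intro P
      induction P using OnePoint.rec with
      | infty =>
        rw [quad_infty]
        exact OnePoint.infty_ne_coe _
      | coe z =>
        rw [quad_map]
        intro h
        have h1 : z ^ 2 - 119 / 48 = 13 / 4 := by exact_mod_cast h
        apply not_square z
        linarith
  · rintro ⟨κ, hκ⟩
    have h6 : ¬ IsPrimePow 6 := by
      rw [isPrimePow_iff_unique_prime_dvd]
      rintro ⟨p, _, hu⟩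
      have a := hu 2 ⟨Nat.prime_two, by norm_num⟩
      have b := hu 3 ⟨Nat.prime_three, by norm_num⟩
      omega
    exact h1 ℚ 6 (by norm_num) h6 ⟨_, hκ ℚ 6 (by norm_num)⟩

end Pool.Agent.Results.MP_e85eb4_nt.AllParts
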